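import Pool.Agent.H69.LQ.Lib

/-!
# KI: the sum of the second angular derivatives
-/

set_option autoImplicit false

open MeasureTheory Metric Set
open scoped ENNReal
open Pool.Agent.H85.LK (E adm lam Ann)
open Pool.Agent.H69.LQ

namespace Pool.Agent.H21.LQ

variable {N : ℕ}

/-- the derivative of a polynomial function -/
noncomputable def dP (P : MvPolynomial (Fin N) ℝ) (x : E N) : E N →L[ℝ] ℝ :=
  ∑ j, ev (MvPolynomial.pderiv j P) x • (EuclideanSpace.proj j : E N →L[ℝ] ℝ)

lemma ev_add (P Q : MvPolynomial (Fin N) ℝ) (x : E N) : ev (P + Q) x = ev P x + ev Q x :=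
  map_add _ _ _

lemma ev_sub (P Q : MvPolynomial (Fin N) ℝ) (x : E N) : ev (P - Q) x = ev P x - ev Q x :=
  map_sub _ _ _

lemma ev_mul (P Q : MvPolynomial (Fin N) ℝ) (x : E N) : ev (P * Q) x = ev P x * ev Q x :=
  map_mul _ _ _

lemma ev_X (i : Fin N) (x : E N) : ev (MvPolynomial.X i) x = x i := MvPolynomial.eval_X _

lemma hasF (P : MvPolynomial (Fin N) ℝ) (x : E N) : HasFDerivAt (ev P) (dP P x) x := by
  induction P using MvPolynomial.induction_on with
  | C a =>
    have e1 : ev (MvPolynomial.C a) = fun _ : E N => a := by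
      funext y
      exact MvPolynomial.eval_C _
    have e2 : dP (MvPolynomial.C a) x = 0 := by
      unfold dP
      refine Finset.sum_eq_zero fun j _ => ?_
      rw [MvPolynomial.pderiv_C]
      have : ev (0 : MvPolynomial (Fin N) ℝ) x = 0 := map_zero _
      rw [this, zero_smul]
    rw [e1, e2]
    exact hasFDerivAt_const a x
  | add p q hp hq =>
    have e1 : ev (p + q) = fun y => ev p y + ev q y := funext fun y => ev_add p q y
    have e2 : dP (p + q) x = dP p x + dP q x := by
      unfold dP
      rw [← Finset.sum_add_distrib]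
      refine Finset.sum_congr rfl fun j _ => ?_
      rw [map_add, ev_add, add_smul]
    rw [e1, e2]
    exact hp.add hq
  | mul_X p i hp =>
    classical
    have e1 : ev (p * MvPolynomial.X i) = fun y => ev p y * y i := by
      funext y
      rw [ev_mul, ev_X]
    have h2 : HasFDerivAt (fun y : E N => y i) (EuclideanSpace.proj i : E N →L[ℝ] ℝ) x :=
      (EuclideanSpace.proj i : E N →L[ℝ] ℝ).hasFDerivAt
    have e2 : dP (p * MvPolynomial.X i) x =
        ev p x • (EuclideanSpace.proj i : E N →L[ℝ] ℝ) + x i • dP p x := by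
      unfold dP
      rw [Finset.smul_sum]
      have e3 : ev p x • (EuclideanSpace.proj i : E N →L[ℝ] ℝ) =
          ∑ j, (ev p x * if j = i then 1 else 0) • (EuclideanSpace.proj j : E N →L[ℝ] ℝ) := by
        rw [Finset.sum_eq_single i]
        · rw [if_pos rfl, mul_one]
        · intro j _ hj
          rw [if_neg hj, mul_zero, zero_smul]
        · intro h
          exact absurd (Finset.mem_univ i) h
      rw [e3, ← Finset.sum_add_distrib]
      refine Finset.sum_congr rfl fun j _ => ?_
      rw [smul_smul, ← add_smul]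
      congr 1
      rw [MvPolynomial.pderiv_mul, ev_add, ev_mul, ev_mul, ev_X]
      have e4 : ev (MvPolynomial.pderiv j (MvPolynomial.X i)) x = if j = i then 1 else 0 := by
        by_cases h : j = i
        · rw [h, MvPolynomial.pderiv_X_self, if_pos rfl]
          exact map_one _
        · rw [MvPolynomial.pderiv_X_of_ne (Ne.symm h), if_neg h]
          exact map_zero _
      rw [e4]
      ring
    rw [e1, e2]
    exact hp.mul h2

lemma fd_ev (P : MvPolynomial (Fin N) ℝ) (x : E N) (k : Fin N) :
    fderiv ℝ (ev P) x (EuclideanSpace.single k 1) = ev (MvPolynomial.pderiv k P) x := by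
  classical
  rw [(hasF P x).fderiv]
  unfold dP
  rw [sum_apply, Finset.sum_eq_single k]
  · simp
  · intro j _ hj
    simp [hj]
  · intro h
    exact absurd (Finset.mem_univ k) h

/-- the angular derivative of a polynomial -/
noncomputable def lP (i j : Fin N) (Q : MvPolynomial (Fin N) ℝ) : MvPolynomial (Fin N) ℝ :=
  MvPolynomial.X i * MvPolynomial.pderiv j Q - MvPolynomial.X j * MvPolynomial.pderiv i Q

lemma LL_ev (i j : Fin N) (Q : MvPolynomial (Fin N) ℝ) : LL i j (ev Q) = ev (lP i j Q) := by
  funext x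
  unfold LL lP
  rw [fd_ev, fd_ev, ev_sub, ev_mul, ev_mul, ev_X, ev_X]

lemma pd_X (i j : Fin N) (x : E N) : ev (MvPolynomial.pderiv j (MvPolynomial.X i)) x =
    if i = j then 1 else 0 := by
  by_cases h : i = j
  · rw [h, MvPolynomial.pderiv_X_self, if_pos rfl]
    exact map_one _
  · rw [MvPolynomial.pderiv_X_of_ne h, if_neg h]
    exact map_zero _

/-- Euler's identity -/
lemma euler {m : ℕ} {Q : MvPolynomial (Fin N) ℝ} (hQ : Q.IsHomogeneous m) (x : E N) :
    ∑ i, x i * ev (MvPolynomial.pderiv i Q) x = m * ev Q x := by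
  have h := congrArg (fun P => ev P x) hQ.sum_X_mul_pderiv
  have h1 : ev (∑ i, MvPolynomial.X i * MvPolynomial.pderiv i Q) x =
      ∑ i, ev (MvPolynomial.X i * MvPolynomial.pderiv i Q) x := map_sum _ _ _
  have h2 : ev (m • Q) x = m * ev Q x := by
    have : ev (m • Q) x = m • ev Q x := map_nsmul _ _ _
    rw [this, nsmul_eq_mul]
  have h3 : ev (∑ i, MvPolynomial.X i * MvPolynomial.pderiv i Q) x = ev (m • Q) x := h
  rw [h1, h2] at h3
  rw [← h3]
  exact Finset.sum_congr rfl fun i _ => by rw [ev_mul, ev_X]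

lemma ev_lP2 (i j : Fin N) (Q : MvPolynomial (Fin N) ℝ) (x : E N) :
    ev (lP i j (lP i j Q)) x =
      x i ^ 2 * ev (MvPolynomial.pderiv j (MvPolynomial.pderiv j Q)) x +
      x j ^ 2 * ev (MvPolynomial.pderiv i (MvPolynomial.pderiv i Q)) x -
      x i * (x j * ev (MvPolynomial.pderiv j (MvPolynomial.pderiv i Q)) x) -
      x j * (x i * ev (MvPolynomial.pderiv i (MvPolynomial.pderiv j Q)) x) +
      (if i = j then x i * ev (MvPolynomial.pderiv j Q) x +
        x j * ev (MvPolynomial.pderiv i Q) x else 0) -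
      x i * ev (MvPolynomial.pderiv i Q) x - x j * ev (MvPolynomial.pderiv j Q) x := by
  unfold lP
  simp only [map_sub, MvPolynomial.pderiv_mul, ev_sub, ev_mul, ev_add, ev_X, pd_X,
    if_true]
  by_cases h : i = j
  · subst h
    simp only [if_true]
    ring
  · have h' : ¬ j = i := fun h2 => h h2.symm
    simp only [if_neg h, if_neg h']
    ring

lemma pd_zero {Q : MvPolynomial (Fin N) ℝ} (hQ : Q.IsHomogeneous 0) (i : Fin N) :
    MvPolynomial.pderiv i Q = 0 := by
  have h1 : Q.totalDegree = 0 := by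
    have := hQ.totalDegree_le
    omega
  rw [MvPolynomial.totalDegree_eq_zero_iff_eq_C.1 h1, MvPolynomial.pderiv_C]

theorem pf_KI : T_KI := by
  classical
  intro N m Q hQ
  refine ⟨fun i j => ⟨lP i j Q, ?_, LL_ev i j Q⟩, ?_⟩
  · rcases Nat.eq_zero_or_pos m with h0 | h0
    · subst h0
      unfold lP
      rw [pd_zero hQ, pd_zero hQ, mul_zero, mul_zero, sub_zero, MvPolynomial.totalDegree_zero]
    · refine MvPolynomial.IsHomogeneous.totalDegree_le ?_
      have h1 : ∀ a b : Fin N,
          (MvPolynomial.X a * MvPolynomial.pderiv b Q : MvPolynomial (Fin N) ℝ).IsHomogeneous m := by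
        intro a b
        have := (MvPolynomial.isHomogeneous_X ℝ a).mul (hQ.pderiv (i := b))
        rwa [Nat.add_sub_cancel' h0] at this
      exact (h1 i j).sub (h1 j i)
  · refine ⟨-∑ j, MvPolynomial.pderiv j (MvPolynomial.pderiv j Q), ?_, fun h0 => ?_, fun θ => ?_⟩
    · rw [MvPolynomial.totalDegree_neg]
      refine MvPolynomial.totalDegree_finsetSum_le fun j _ => ?_
      exact ((hQ.pderiv (i := j)).pderiv (i := j)).totalDegree_le.trans (Nat.sub_le _ _)
    · subst h0
      rw [neg_eq_zero]
      refine Finset.sum_eq_zero fun j _ => ?_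
      rw [pd_zero hQ, map_zero]
    · have hsq : ∑ i, (θ : E N) i ^ 2 = 1 := sum_sq_sp θ
      have e1 : ∀ i j, LL i j (LL i j (ev Q)) (θ : E N) = ev (lP i j (lP i j Q)) (θ : E N) := by
        intro i j
        rw [LL_ev, LL_ev]
      simp only [e1, ev_lP2, Finset.sum_add_distrib, Finset.sum_sub_distrib]
      have hE1 := euler hQ (θ : E N)
      have hE2 : ∀ j, ∑ i, (θ : E N) i *
          ev (MvPolynomial.pderiv i (MvPolynomial.pderiv j Q)) (θ : E N) =
          ((m - 1 : ℕ) : ℝ) * ev (MvPolynomial.pderiv j Q) (θ : E N) := fun j =>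
        euler (hQ.pderiv (i := j)) (θ : E N)
      have s1 : ∑ i, ∑ j, (θ : E N) i ^ 2 *
          ev (MvPolynomial.pderiv j (MvPolynomial.pderiv j Q)) (θ : E N) =
          ∑ j, ev (MvPolynomial.pderiv j (MvPolynomial.pderiv j Q)) (θ : E N) := by
        rw [← Finset.sum_mul_sum, hsq, one_mul]
      have s2 : ∑ i, ∑ j, (θ : E N) j ^ 2 *
          ev (MvPolynomial.pderiv i (MvPolynomial.pderiv i Q)) (θ : E N) =
          ∑ j, ev (MvPolynomial.pderiv j (MvPolynomial.pderiv j Q)) (θ : E N) := by
        rw [Finset.sum_comm, s1]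
      have s3 : ∑ i, ∑ j, (θ : E N) i * ((θ : E N) j *
          ev (MvPolynomial.pderiv j (MvPolynomial.pderiv i Q)) (θ : E N)) =
          ((m - 1 : ℕ) : ℝ) * (m * ev Q (θ : E N)) := by
        rw [← hE1, Finset.mul_sum]
        refine Finset.sum_congr rfl fun i _ => ?_
        rw [← Finset.mul_sum, hE2]
        ring
      have s4 : ∑ i, ∑ j, (θ : E N) j * ((θ : E N) i *
          ev (MvPolynomial.pderiv i (MvPolynomial.pderiv j Q)) (θ : E N)) =
          ((m - 1 : ℕ) : ℝ) * (m * ev Q (θ : E N)) := by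
        rw [Finset.sum_comm, s3]
      have s5 : ∑ i, ∑ j, (if i = j then (θ : E N) i * ev (MvPolynomial.pderiv j Q) (θ : E N) +
          (θ : E N) j * ev (MvPolynomial.pderiv i Q) (θ : E N) else 0) =
          2 * (m * ev Q (θ : E N)) := by
        rw [← hE1, Finset.mul_sum]
        refine Finset.sum_congr rfl fun i _ => ?_
        rw [Finset.sum_ite_eq, if_pos (Finset.mem_univ i)]
        ring
      have s6 : ∑ i : Fin N, ∑ _j : Fin N, (θ : E N) i * ev (MvPolynomial.pderiv i Q) (θ : E N) =
          N * (m * ev Q (θ : E N)) := by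
        rw [Finset.sum_comm, hE1, Finset.sum_const, Finset.card_univ, Fintype.card_fin,
          nsmul_eq_mul]
      have s7 : ∑ _i : Fin N, ∑ j : Fin N, (θ : E N) j * ev (MvPolynomial.pderiv j Q) (θ : E N) =
          N * (m * ev Q (θ : E N)) := by
        rw [hE1, Finset.sum_const, Finset.card_univ, Fintype.card_fin, nsmul_eq_mul]
      rw [s1, s2, s3, s4, s5, s6, s7]
      have e2 : ev (-∑ j, MvPolynomial.pderiv j (MvPolynomial.pderiv j Q)) (θ : E N) =
          -∑ j, ev (MvPolynomial.pderiv j (MvPolynomial.pderiv j Q)) (θ : E N) := by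
        have h1 : ev (-∑ j, MvPolynomial.pderiv j (MvPolynomial.pderiv j Q)) (θ : E N) =
          -ev (∑ j, MvPolynomial.pderiv j (MvPolynomial.pderiv j Q)) (θ : E N) := map_neg _ _
        have h2 : ev (∑ j, MvPolynomial.pderiv j (MvPolynomial.pderiv j Q)) (θ : E N) =
          ∑ j, ev (MvPolynomial.pderiv j (MvPolynomial.pderiv j Q)) (θ : E N) := map_sum _ _ _
        rw [h1, h2]
      rw [e2]
      have e3 : ((m - 1 : ℕ) : ℝ) * (m * ev Q (θ : E N)) =
          ((m : ℝ) - 1) * (m * ev Q (θ : E N)) := by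
        rcases Nat.eq_zero_or_pos m with h0 | h0
        · rw [h0]
          simp
        · rw [Nat.cast_sub h0, Nat.cast_one]
      rw [e3]
      ring

end Pool.Agent.H21.LQ
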