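import Pool.Agent.H7.LP.Targets3

/-!
Row TRS of the board lpq_modules (MP_5607ba_lc): the strong transfer.
-/

set_option autoImplicit false

open Set Filter Topology

namespace Pool.Agent.H21.LQ

open Pool.Agent.H93.CP Pool.Agent.H7.LP Pool.Agent.H7.LQ

theorem pf_TRS (h1 : Pool.Agent.H7.LP.T_HIT) (h2 : Pool.Agent.H7.LQ.T_CAN) (h3 : T_BSX) (h4 : T_UMX) (h5 : T_SLQ)
    (h6 : T_ORQ) (h7 : T_ISQ) (h8 : T_ENC) : T_TRS := by
  intro G X _ _ _ _ _ _ _ _ L M _ _ hM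
  rcases isEmpty_or_nonempty X with hX | hX
  · have he : IsEmpty (∅ : Set Rel) := ⟨fun w => Set.notMem_empty _ w.2⟩
    refine ⟨∅, fun x => isEmptyElim x, MeasurableSet.empty,
      fun w w' hw => (Set.notMem_empty _ hw).elim,
      measurable_of_empty _, fun x => isEmptyElim x, fun x => isEmptyElim x,
      fun w => isEmptyElim w, measurable_of_empty _, fun w => isEmptyElim w⟩
  obtain ⟨Y⟩ := h1 G X M hM
  obtain ⟨S⟩ := h2 G X L M Y
  obtain ⟨B⟩ := h3 G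
  obtain ⟨u0, hu0m, hu0⟩ := h4 G X B L M Y S
  obtain ⟨hW2, f, hfm, hf⟩ := h5 G X B L M Y S hM
  obtain ⟨θ, θm, θi, θe, θc⟩ := h8
  have hθ : MeasurableEmbedding θ := θm.measurableEmbedding θi
  have hne : Nonempty St2 := ⟨u0 (Classical.arbitrary X)⟩
  refine ⟨θ '' (W2 B S), fun x => θ (u0 x), hθ.measurableSet_image.2 hW2, ?_, θm.comp hu0m, ?_,
    ?_, fun w => f (hθ.invFun (w : Rel)), hfm.comp (hθ.measurable_invFun.comp
      measurable_subtype_coe), ?_⟩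
  · rintro w w' ⟨w0, ⟨x, e, he, hst⟩, rfl⟩ hiso
    obtain ⟨w0', rfl⟩ := θc w0 w' hiso
    obtain ⟨e', he', hst'⟩ := h7 G X B L M Y S x e w0 w0' he hst ((θe w0 w0').2 hiso)
    exact ⟨w0', ⟨x, e', he', hst'⟩, rfl⟩
  · intro x
    obtain ⟨e, he, hst⟩ := hu0 x
    exact ⟨u0 x, ⟨x, e, he, hst⟩, rfl⟩
  · intro x x'
    obtain ⟨e, he, hst⟩ := hu0 x
    obtain ⟨e', he', hst'⟩ := hu0 x'
    rw [← θe]
    exact (h6 G X B L M Y S x x' e e' (u0 x) (u0 x') he hst he' hst').symm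
  · rintro ⟨w, w0, hw0, rfl⟩
    show IsoR (θ (u0 (f (hθ.invFun (θ w0))))) (θ w0)
    rw [hθ.leftInverse_invFun w0, ← θe]
    obtain ⟨e, he, hst⟩ := hf w0 hw0
    obtain ⟨e', he', hst'⟩ := hu0 (f w0)
    exact (h6 G X B L M Y S (f w0) (f w0) e' e (u0 (f w0)) w0 he' hst' he hst).2
      ⟨1, one_smul _ _⟩

end Pool.Agent.H21.LQ
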